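import Pool.Agent.Lib.MP_fe1582_an.Lp

/-!
The mixed norm Strichartz estimate on `ℝ × 𝕋`: sharp for every `p > 3`, and sharp up to `N^ε`
for `2 ≤ p ≤ 3`.
-/

set_option autoImplicit false

open MeasureTheory Complex

namespace Pool.Agent.Results.MP_fe1582_an.Strichartz

/-- The operator `T_{N,ξ0}`, applied to the Fourier transform `g` of the datum,
evaluated at `z = (t, x₁)`. -/
noncomputable def T (φ : ℝ → ℂ) (N : ℝ) (ξ0 : ℝ × ℤ) (g : ℝ × ℤ → ℂ) (z : ℝ × ℝ) : ℂ :=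
  φ z.1 * ∫ ξ in {ξ : ℝ × ℤ | (ξ.1 - ξ0.1) ^ 2 + ((ξ.2 : ℝ) - (ξ0.2 : ℝ)) ^ 2 ≤ N ^ 2},
    cexp (I * ((z.2 * ξ.1 - z.1 * (ξ.1 ^ 2 + (ξ.2 : ℝ) ^ 2) : ℝ) : ℂ)) * g ξ
      ∂((volume : Measure ℝ).prod (Measure.count : Measure ℤ))

theorem result (φ : ℝ → ℂ) (hφ : Continuous φ) (hc : HasCompactSupport φ)
    (p : ℝ) (hp : 2 ≤ p) (ε : ℝ) (hε : 0 < ε) :
    ∃ C : ℝ, ∀ N : ℝ, 1 ≤ N → ∀ (ξ0 : ℝ × ℤ) (g : ℝ × ℤ → ℂ),
      MemLp g 2 ((volume : Measure ℝ).prod (Measure.count : Measure ℤ)) →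
      eLpNorm (T φ N ξ0 g) (ENNReal.ofReal p) (volume : Measure (ℝ × ℝ)) ≤
        ENNReal.ofReal (C * (N ^ (1 - 3 / p) + N ^ ε)) *
          eLpNorm g 2 ((volume : Measure ℝ).prod (Measure.count : Measure ℤ)) := by
  obtain ⟨C, hC⟩ := Pool.Agent.Lib.MP_fe1582_an.exists_main hφ hc hp hε
  refine ⟨C, fun N hN ξ0 g hg => ?_⟩
  set B := {ξ : ℝ × ℤ | (ξ.1 - ξ0.1) ^ 2 + ((ξ.2 : ℝ) - (ξ0.2 : ℝ)) ^ 2 ≤ N ^ 2} with hB
  have hBm : MeasurableSet B := measurableSet_le (by fun_prop) measurable_const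
  have hae := hg.1.ae_eq_mk
  have h1 := hC (B.indicator (hg.1.mk g)) (hg.1.measurable_mk.indicator hBm)
    ((hg.ae_eq hae).indicator hBm) N ξ0.1 ξ0.2 hN (fun y hy => by
      have h' : y ∈ B := Set.mem_of_indicator_ne_zero hy
      have h : (y.1 - ξ0.1) ^ 2 + ((y.2 : ℝ) - (ξ0.2 : ℝ)) ^ 2 ≤ N ^ 2 := h'
      exact ⟨abs_le_of_sq_le_sq (by nlinarith [sq_nonneg ((y.2 : ℝ) - (ξ0.2 : ℝ))]) (by linarith),
        abs_le_of_sq_le_sq (by nlinarith [sq_nonneg (y.1 - ξ0.1)]) (by linarith)⟩)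
  have h2 : T φ N ξ0 g = fun z => φ z.1 *
      Pool.Agent.Lib.MP_fe1582_an.Fg (B.indicator (hg.1.mk g)) z := by
    funext z
    unfold T
    congr 1
    refine Eq.trans ?_ (Pool.Agent.Lib.MP_fe1582_an.E_eq (g := hg.1.mk g) hBm z).symm
    refine integral_congr_ae (ae_restrict_of_ae ?_)
    filter_upwards [hae] with y hy
    rw [← hy, mul_comm, mul_comm I]
    rfl
  rw [h2]
  refine h1.trans (mul_le_mul_right ?_ _)
  exact (eLpNorm_indicator_le _).trans (eLpNorm_congr_ae hae).ge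

end Pool.Agent.Results.MP_fe1582_an.Strichartz
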